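import Mathlib

set_option autoImplicit false

namespace Pool.Agent.Results.MP_898cae_lc.Continuum

open Cardinal Set MeasureTheory

/-- The standard product measure on Cantor space. -/
noncomputable def lam : Measure (ℕ → Fin 2) :=
  Measure.infinitePi (fun _ : ℕ => ProbabilityTheory.uniformOn (Set.univ : Set (Fin 2)))

/-- The set `V_m^i`. -/
def V (m : ℕ) (i : Fin 2) : Set (ℕ → Fin 2) := {x | x m = i}

/-- The atom of `𝒜_n` containing `x`. -/
def atom (n : ℕ) (x : ℕ → Fin 2) : Set (ℕ → Fin 2) := {y | ∀ m, m ≤ n → y m = x m}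

/-- The function `φ_m`. -/
noncomputable def phi (m : ℕ) (A : Set (ℕ → Fin 2)) : ℝ :=
  |lam.real (A ∩ V m 0) - lam.real (A ∩ V m 1)|

/-- A subalgebra of the Borel algebra, containing the clopen sets, with property (T). -/
def HasT (B : Set (Set (ℕ → Fin 2))) : Prop :=
  IsSetAlgebra B ∧ (∀ A ∈ B, @MeasurableSet _ (borel (ℕ → Fin 2)) A) ∧
  (∀ A, IsClopen A → A ∈ B) ∧
  ∀ (p : ℕ) (A : Fin p → Set (ℕ → Fin 2)), (∀ i, A i ∈ B) → ∀ ε : ℝ, 0 < ε →
    ∃ n : ℕ, 0 < n ∧ ∀ (x : ℕ → Fin 2) (i : Fin p),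
      (lam.real (A i ∩ atom n x) ≤ ε * lam.real (atom n x) / n ∨
        lam.real (atom n x \ A i) ≤ ε * lam.real (atom n x) / n) ∧
      ∀ m : ℕ, n < m → phi m (A i ∩ atom n x) ≤ ε * lam.real (atom n x) / m

theorem borel_iff (A : Set (ℕ → Fin 2)) :
    @MeasurableSet _ (borel (ℕ → Fin 2)) A ↔ MeasurableSet A := by
  rw [← BorelSpace.measurable_eq (α := ℕ → Fin 2)]

theorem lam_pi (s : Finset ℕ) (x : ℕ → Fin 2) :
    lam (Set.pi s (fun k => {x k})) = (2 : ENNReal)⁻¹ ^ s.card := by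
  unfold lam
  rw [Measure.infinitePi_pi _ (fun i _ => measurableSet_singleton _)]
  simp [ProbabilityTheory.uniformOn_univ]

theorem lam_singleton (x : ℕ → Fin 2) : lam {x} = 0 := by
  refine le_antisymm ?_ zero_le
  refine ge_of_tendsto' (ENNReal.tendsto_pow_atTop_nhds_zero_of_lt_one
    (r := (2 : ENNReal)⁻¹) (by norm_num)) (fun n => ?_)
  have := lam_pi (Finset.range n) x
  rw [Finset.card_range] at this
  rw [← this]
  refine measure_mono ?_
  rintro y rfl k _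
  rfl

theorem phi_atom (n m : ℕ) (h : n < m) (x : ℕ → Fin 2) : phi m (atom n x) = 0 := by
  have h1 : ∀ i, atom n x ∩ V m i = Set.pi (insert m (Finset.range (n + 1)) : Finset ℕ)
      (fun k => {Function.update x m i k}) := by
    intro i
    ext y
    simp only [atom, V, mem_inter_iff, mem_setOf_eq, mem_pi, Finset.coe_insert, Finset.coe_range,
      mem_insert_iff, mem_Iio, mem_singleton_iff]
    constructor
    · rintro ⟨h2, h3⟩ k (rfl | hk)
      · simpa using h3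
      · rw [Function.update_of_ne (by omega)]
        exact h2 k (by omega)
    · intro h2
      refine ⟨fun k hk => ?_, by simpa using h2 m (Or.inl rfl)⟩
      have := h2 k (Or.inr (by omega))
      rwa [Function.update_of_ne (by omega)] at this
  unfold phi Measure.real
  rw [h1, h1, lam_pi, lam_pi]
  simp

theorem clopen_dep {A : Set (ℕ → Fin 2)} (hA : IsClopen A) :
    ∃ n, ∀ N, n ≤ N → ∀ x, atom N x ⊆ A ∨ atom N x ⊆ Aᶜ := by
  have h0 : ∀ (O : Set (ℕ → Fin 2)), IsOpen O → ∀ x ∈ O, ∃ n, PiNat.cylinder x n ⊆ O := by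
    intro O hO x hx
    obtain ⟨_, ⟨y, n, rfl⟩, h1, h2⟩ :=
      (PiNat.isTopologicalBasis_cylinders (fun _ : ℕ => Fin 2)).exists_subset_of_mem_open hx hO
    exact ⟨n, (PiNat.mem_cylinder_iff_eq.1 h1) ▸ h2⟩
  have h1 : ∀ x, ∃ n, PiNat.cylinder x n ⊆ A ∨ PiNat.cylinder x n ⊆ Aᶜ := by
    intro x
    by_cases hx : x ∈ A
    · obtain ⟨n, hn⟩ := h0 A hA.isOpen x hx
      exact ⟨n, Or.inl hn⟩
    · obtain ⟨n, hn⟩ := h0 Aᶜ hA.compl.isOpen x hx
      exact ⟨n, Or.inr hn⟩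
  choose n hn using h1
  obtain ⟨t, ht⟩ := isCompact_univ.elim_finite_subcover (fun x => PiNat.cylinder x (n x))
    (fun x => PiNat.isOpen_cylinder _ x (n x))
    (fun x _ => mem_iUnion.2 ⟨x, PiNat.self_mem_cylinder x _⟩)
  refine ⟨t.sup n, fun N hN x => ?_⟩
  obtain ⟨z, hz1, hz2⟩ := mem_iUnion₂.1 (ht (mem_univ x))
  have h2 : atom N x ⊆ PiNat.cylinder z (n z) := by
    intro y hy k hk
    have h3 : n z ≤ t.sup n := Finset.le_sup hz1
    rw [hy k (by omega)]
    exact hz2 k hk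
  exact (hn z).imp h2.trans h2.trans

theorem hasT_clopen : HasT {A | IsClopen A} := by
  refine ⟨⟨isClopen_empty, fun s hs => hs.compl, fun s t hs ht => hs.union ht⟩,
    fun A hA => (borel_iff A).2 hA.isOpen.measurableSet, fun A hA => hA, fun p A hA ε hε => ?_⟩
  choose n hn using fun i => clopen_dep (hA i)
  refine ⟨Finset.univ.sup n + 1, Nat.succ_pos _, fun x i => ?_⟩
  have h0 : ∀ m : ℕ, 0 ≤ ε * lam.real (atom (Finset.univ.sup n + 1) x) / m := fun m =>
    div_nonneg (mul_nonneg hε.le measureReal_nonneg) (Nat.cast_nonneg _)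
  rcases hn i (Finset.univ.sup n + 1)
    (Nat.le_succ_of_le (Finset.le_sup (Finset.mem_univ i))) x with h | h
  · refine ⟨Or.inr ?_, fun m hm => ?_⟩
    · rw [sdiff_eq_empty.2 h, measureReal_empty]
      exact h0 _
    · rw [inter_eq_right.2 h, phi_atom _ _ hm]
      exact h0 _
  · have h1 : A i ∩ atom (Finset.univ.sup n + 1) x = ∅ :=
      eq_empty_of_forall_notMem (fun y hy => h hy.2 hy.1)
    refine ⟨Or.inl ?_, fun m _ => ?_⟩
    · rw [h1, measureReal_empty]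
      exact h0 _
    · rw [h1]
      simpa [phi] using h0 m

theorem exists_maximal : ∃ B, Maximal HasT B := by
  obtain ⟨m, _, hm⟩ := zorn_subset_nonempty {B | HasT B} (fun c hc1 hc2 hc3 => by
    have h1 : ∀ (p : ℕ) (A : Fin p → Set (ℕ → Fin 2)), (∀ i, A i ∈ ⋃₀ c) →
        ∃ B ∈ c, ∀ i, A i ∈ B := by
      intro p A hA
      induction p with
      | zero =>
        obtain ⟨B, hB⟩ := hc3
        exact ⟨B, hB, fun i => i.elim0⟩
      | succ p ih =>
        obtain ⟨B, hB1, hB2⟩ := ih (fun i => A i.succ) (fun i => hA _)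
        obtain ⟨C, hC1, hC2⟩ := hA 0
        obtain ⟨D, hD1, hD2, hD3⟩ := hc2.directedOn B hB1 C hC1
        exact ⟨D, hD1, fun i => Fin.cases (hD3 hC2) (fun j => hD2 (hB2 j)) i⟩
    obtain ⟨B0, hB0⟩ := hc3
    refine ⟨⋃₀ c, ⟨⟨⟨B0, hB0, (hc1 hB0).1.empty_mem⟩, ?_, ?_⟩, ?_, ?_, ?_⟩,
      fun s hs => subset_sUnion_of_mem hs⟩
    · rintro s ⟨B, hB1, hB2⟩
      exact ⟨B, hB1, (hc1 hB1).1.compl_mem hB2⟩
    · rintro s t ⟨B, hB1, hB2⟩ ⟨C, hC1, hC2⟩
      obtain ⟨D, hD1, hD2, hD3⟩ := hc2.directedOn B hB1 C hC1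
      exact ⟨D, hD1, (hc1 hD1).1.union_mem (hD2 hB2) (hD3 hC2)⟩
    · rintro A ⟨B, hB1, hB2⟩
      exact (hc1 hB1).2.1 A hB2
    · exact fun A hA => ⟨B0, hB0, (hc1 hB0).2.2.1 A hA⟩
    · intro p A hA
      obtain ⟨B, hB1, hB2⟩ := h1 p A hA
      exact (hc1 hB1).2.2.2 p A hB2) _ hasT_clopen
  exact ⟨m, hm⟩

theorem hasT_hull {B : Set (Set (ℕ → Fin 2))} (hB : HasT B) :
    HasT {C | MeasurableSet C ∧ ∃ A ∈ B, C =ᵐ[lam] A} := by
  refine ⟨⟨⟨MeasurableSet.empty, ∅, hB.1.empty_mem, ae_eq_refl _⟩, ?_, ?_⟩,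
    fun C hC => (borel_iff C).2 hC.1,
    fun A hA => ⟨hA.isOpen.measurableSet, A, hB.2.2.1 A hA, ae_eq_refl _⟩, ?_⟩
  · rintro s ⟨h1, A, h2, h3⟩
    exact ⟨h1.compl, Aᶜ, hB.1.compl_mem h2, h3.compl⟩
  · rintro s t ⟨h1, A, h2, h3⟩ ⟨g1, A', g2, g3⟩
    exact ⟨h1.union g1, A ∪ A', hB.1.union_mem h2 g2, h3.union g3⟩
  · intro p C hC ε hε
    choose A hA1 hA2 using fun i => (hC i).2
    obtain ⟨n, hn1, hn2⟩ := hB.2.2.2 p A hA1 ε hε
    refine ⟨n, hn1, fun x i => ?_⟩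
    have e1 : ∀ U : Set (ℕ → Fin 2), lam.real (C i ∩ U) = lam.real (A i ∩ U) := fun U =>
      measureReal_congr ((hA2 i).inter (ae_eq_refl _))
    have e2 : lam.real (atom n x \ C i) = lam.real (atom n x \ A i) :=
      measureReal_congr ((ae_eq_refl _).diff (hA2 i))
    have e3 : ∀ m, phi m (C i ∩ atom n x) = phi m (A i ∩ atom n x) := by
      intro m
      simp only [phi, inter_assoc, e1]
    rw [e1, e2]
    simp only [e3]
    exact hn2 x i

theorem result : {κ : Cardinal.{0} | ∃ B, Maximal HasT B ∧ #B = κ} = {𝔠} := by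
  have h1 : ∀ B, Maximal HasT B → #B = 𝔠 := by
    intro B hB
    refine le_antisymm ?_ ?_
    · have h2 := MeasurableSpace.cardinal_measurableSet_le_continuum
        (s := MeasurableSpace.countableGeneratingSet (ℕ → Fin 2))
        ((le_aleph0_iff_set_countable.2
          MeasurableSpace.countable_countableGeneratingSet).trans aleph0_le_continuum)
      rw [MeasurableSpace.generateFrom_countableGeneratingSet] at h2
      exact (mk_le_mk_of_subset (fun A hA => (borel_iff A).1 (hB.1.2.1 A hA))).trans h2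
    · have h2 := hB.2 (hasT_hull hB.1)
        (fun A hA => ⟨(borel_iff A).1 (hB.1.2.1 A hA), A, hA, ae_eq_refl _⟩)
      have h3 : ∀ x : ℕ → Fin 2, {x} ∈ B := fun x =>
        h2 ⟨measurableSet_singleton x, ∅, hB.1.1.empty_mem, ae_eq_empty.2 (lam_singleton x)⟩
      have h4 : #(ℕ → Fin 2) = 𝔠 := by simp
      rw [← h4]
      refine mk_le_of_injective (f := fun x => (⟨{x}, h3 x⟩ : B)) (fun x y hxy => ?_)
      exact singleton_injective (congrArg Subtype.val hxy)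
  ext κ
  constructor
  · rintro ⟨B, hB, rfl⟩
    exact h1 B hB
  · rintro rfl
    obtain ⟨B, hB⟩ := exists_maximal
    exact ⟨B, hB, h1 B hB⟩

end Pool.Agent.Results.MP_898cae_lc.Continuum
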